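import Mathlib
import Pool.Agent.Helper362.IdealD

set_option autoImplicit false
set_option maxSynthPendingDepth 3

open MeasureTheory Filter Topology Set
open scoped ENNReal

/-!
# Complemented copies of `L₁` in dual spaces, I

`Z` is a Banach space, `μ` a finite measure.  The data are a map `J` from `L₂(μ)` to the dual of `Z`
which is bounded for the `L₁` norm, and functionals `β B` on the dual of `Z` (one for every measurable
set `B`) with `β B (J f) = ∫_B f`.
-/

namespace Pool.Agent.R279.HS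

universe u v

variable {Ω : Type u} [MeasurableSpace Ω] {μ : Measure Ω} [IsFiniteMeasure μ]
variable {Z : Type v} [NormedAddCommGroup Z] [NormedSpace ℝ Z]

/-- a (complemented) copy of `L₁(μ)` in the dual of `Z` -/
structure Dat (μ : Measure Ω) (Z : Type v) [NormedAddCommGroup Z] [NormedSpace ℝ Z] where
  J : Lp ℝ 2 μ →L[ℝ] StrongDual ℝ Z
  K : ℝ
  hK : ∀ f : Lp ℝ 2 μ, ‖J f‖ ≤ K * ∫ x, |f x| ∂μ
  β : Set Ω → StrongDual ℝ (StrongDual ℝ Z)
  hβ : ∀ B : Set Ω, MeasurableSet B → ∀ f : Lp ℝ 2 μ, β B (J f) = ∫ x in B, f x ∂μ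
  C : ℝ
  hC : ∀ (I : Type) [Fintype I] (B : I → Set Ω), (∀ i, MeasurableSet (B i)) →
    Pairwise (Function.onFun Disjoint B) → ∀ ε : I → ℝ, (∀ i, |ε i| ≤ 1) →
    ‖∑ i, ε i • β (B i)‖ ≤ C

/-- the map from `Z` to `L₂(μ)` -/
noncomputable def kap (D : Dat μ Z) (z : Z) : Lp ℝ 2 μ :=
  (InnerProductSpace.toDual ℝ (Lp ℝ 2 μ)).symm (D.J.flip z)

lemma inner_kap (D : Dat μ Z) (z : Z) (f : Lp ℝ 2 μ) : inner ℝ (kap D z) f = D.J f z := by
  unfold kap
  rw [InnerProductSpace.toDual_symm_apply]; rfl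

lemma kap_add (D : Dat μ Z) (z w : Z) : kap D (z + w) = kap D z + kap D w := by
  unfold kap; rw [map_add, map_add]

lemma kap_smul (D : Dat μ Z) (c : ℝ) (z : Z) : kap D (c • z) = c • kap D z := by
  unfold kap; rw [map_smul, LinearIsometryEquiv.map_smulₛₗ]; rfl

lemma inner_indicator (f : Lp ℝ 2 μ) {B : Set Ω} (hB : MeasurableSet B) :
    inner ℝ f (indicatorConstLp 2 hB (measure_ne_top μ B) (1 : ℝ)) = ∫ x in B, f x ∂μ := by
  rw [real_inner_comm]
  exact L2.inner_indicatorConstLp_one hB (measure_ne_top μ B) f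

/-- signs of absolute value at most one -/
def Sgn {I : Type} (ε : I → ℝ) : Prop := ∀ i, |ε i| ≤ 1

lemma approx (D : Dat μ Z) {I : Type} [Fintype I] [DecidableEq I] (B : I → Set Ω)
    (hB : ∀ i, MeasurableSet (B i)) (hd : Pairwise (Function.onFun Disjoint B)) {δ : ℝ} (hδ : 0 < δ) :
    ∃ z : I → Z, (∀ ε : I → ℝ, (∀ i, |ε i| ≤ 1) → ‖∑ i, ε i • z i‖ ≤ 2 * D.C) ∧
      ∀ i, ‖kap D (z i) - indicatorConstLp 2 (hB i) (measure_ne_top μ (B i)) (1 : ℝ)‖ ≤ δ := by
  classical
  let e : I → Lp ℝ 2 μ := fun i => indicatorConstLp 2 (hB i) (measure_ne_top μ (B i)) (1 : ℝ)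
  let KK : Set (I → Lp ℝ 2 μ) := {k | ∃ z : I → Z,
    (∀ ε : I → ℝ, (∀ i, |ε i| ≤ 1) → ‖∑ i, ε i • z i‖ ≤ 2 * D.C) ∧ ∀ i, k i = kap D (z i)}
  have hconv : Convex ℝ KK := by
    rintro k ⟨z, hz, hk⟩ l ⟨w, hw, hl⟩ a b ha hb hab
    refine ⟨fun i => a • z i + b • w i, fun ε hε => ?_, fun i => ?_⟩
    · have : ∑ i, ε i • (a • z i + b • w i) = a • ∑ i, ε i • z i + b • ∑ i, ε i • w i := by
        rw [Finset.smul_sum, Finset.smul_sum, ← Finset.sum_add_distrib]
        refine Finset.sum_congr rfl fun i _ => ?_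
        rw [smul_add, smul_comm (ε i) a, smul_comm (ε i) b]
      rw [this]
      refine (norm_add_le _ _).trans ?_
      rw [norm_smul, norm_smul, Real.norm_of_nonneg ha, Real.norm_of_nonneg hb]
      have h1 := hz ε hε
      have h2 := hw ε hε
      calc a * ‖∑ i, ε i • z i‖ + b * ‖∑ i, ε i • w i‖ ≤ a * (2 * D.C) + b * (2 * D.C) := by gcongr
        _ = 2 * D.C := by rw [← add_mul, hab, one_mul]
    · change a • k i + b • l i = _
      rw [hk, hl, kap_add, kap_smul, kap_smul]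
  have hmem : e ∈ closure KK := by
    by_contra hcon
    obtain ⟨f, u, h1, h2⟩ := geometric_hahn_banach_closed_point hconv.closure isClosed_closure hcon
    let fi : I → StrongDual ℝ (Lp ℝ 2 μ) := fun i =>
      f.comp (ContinuousLinearMap.single ℝ (fun _ : I => Lp ℝ 2 μ) i)
    have hf : ∀ k : I → Lp ℝ 2 μ, f k = ∑ i, fi i (k i) := by
      intro k
      conv_lhs => rw [← Finset.univ_sum_single k]
      rw [map_sum]; rfl
    let g : I → Lp ℝ 2 μ := fun i => (InnerProductSpace.toDual ℝ (Lp ℝ 2 μ)).symm (fi i)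
    have hg : ∀ i k, fi i k = inner ℝ (g i) k := fun i k => by
      rw [InnerProductSpace.toDual_symm_apply]
    let G : Submodule ℝ (StrongDual ℝ (StrongDual ℝ Z)) :=
      Submodule.span ℝ (Set.range fun i => D.β (B i))
    let F : Submodule ℝ (StrongDual ℝ Z) := Submodule.span ℝ (Set.range fun i => D.J (g i))
    have hGfin : FiniteDimensional ℝ G := FiniteDimensional.span_of_finite ℝ (Set.finite_range _)
    have hFfin : FiniteDimensional ℝ F := FiniteDimensional.span_of_finite ℝ (Set.finite_range _)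
    obtain ⟨R, hR1, hR2, -⟩ := Pool.Agent.Helper362.Ideals.plr (𝕜 := ℝ) G F 1 one_pos
    have hGmem : ∀ i, D.β (B i) ∈ G := fun i => Submodule.subset_span ⟨i, rfl⟩
    have hFmem : ∀ i, D.J (g i) ∈ F := fun i => Submodule.subset_span ⟨i, rfl⟩
    let z : I → Z := fun i => R ⟨D.β (B i), hGmem i⟩
    have hz : ∀ ε : I → ℝ, (∀ i, |ε i| ≤ 1) → ‖∑ i, ε i • z i‖ ≤ 2 * D.C := by
      intro ε hε
      have e1 : ∑ i, ε i • z i = R (∑ i, ε i • ⟨D.β (B i), hGmem i⟩) := by
        rw [map_sum]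
        exact Finset.sum_congr rfl fun i _ => by rw [map_smul]
      rw [e1]
      refine (R.le_opNorm _).trans ?_
      have e2 : ‖(∑ i, ε i • (⟨D.β (B i), hGmem i⟩ : G))‖ = ‖∑ i, ε i • D.β (B i)‖ := by
        have e3 : ((∑ i, ε i • (⟨D.β (B i), hGmem i⟩ : G) : G) : StrongDual ℝ (StrongDual ℝ Z)) =
            ∑ i, ε i • D.β (B i) := by
          rw [Submodule.coe_sum]; rfl
        rw [← e3]; rfl
      rw [e2]
      have h3 := D.hC I B hB hd ε hε
      have h4 : ‖R‖ ≤ 2 := by linarith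
      exact mul_le_mul h4 h3 (norm_nonneg _) (by norm_num)
    have hK : (fun i => kap D (z i)) ∈ KK := ⟨z, hz, fun _ => rfl⟩
    have h3 := h1 _ (subset_closure hK)
    have h4 : f (fun i => kap D (z i)) = f e := by
      rw [hf, hf]
      refine Finset.sum_congr rfl fun i _ => ?_
      rw [hg, hg, real_inner_comm, inner_kap]
      have h5 := hR2 ⟨D.β (B i), hGmem i⟩ (D.J (g i)) (hFmem i)
      change D.J (g i) (z i) = D.β (B i) (D.J (g i)) at h5
      rw [h5, D.hβ _ (hB i)]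
      exact (inner_indicator (g i) (hB i)).symm
    rw [h4] at h3
    linarith
  rw [Metric.mem_closure_iff] at hmem
  obtain ⟨k, ⟨z, hz, hk⟩, hdist⟩ := hmem δ hδ
  refine ⟨z, hz, fun i => ?_⟩
  rw [← hk, ← dist_eq_norm, dist_comm]
  exact (dist_le_pi_dist e k i).trans hdist.le

/-- Chebyshev -/
lemma cheb (f : Lp ℝ 2 μ) {η : ℝ} (hη : 0 < η) :
    μ {x | η ≤ |f x|} ≤ ENNReal.ofReal ((‖f‖ / η) ^ 2) := by
  have h := Lp.mul_meas_ge_le_pow_enorm' f (by norm_num : (2 : ℝ≥0∞) ≠ 0) (by norm_num) (ENNReal.ofReal η)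
  have e2 : (2 : ℝ≥0∞).toReal = 2 := by norm_num
  rw [e2] at h
  have e3 : {x | ENNReal.ofReal η ≤ (‖f x‖₊ : ℝ≥0∞)} = {x | η ≤ |f x|} := by
    ext x
    simp only [mem_setOf_eq]
    rw [← enorm_eq_nnnorm, Real.enorm_eq_ofReal_abs, ENNReal.ofReal_le_ofReal_iff (abs_nonneg _)]
  rw [e3] at h
  have e4 : ∀ a : ℝ≥0∞, a ^ (2:ℝ) = a ^ 2 := fun a => by
    rw [← ENNReal.rpow_natCast]; norm_num
  rw [e4, e4, ← ENNReal.ofReal_pow hη.le, ← ENNReal.ofReal_pow (norm_nonneg _)] at h
  rw [div_pow, ENNReal.ofReal_div_of_pos (by positivity)]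
  rw [ENNReal.le_div_iff_mul_le (Or.inl (by positivity)) (Or.inl ENNReal.ofReal_ne_top), mul_comm]
  exact h

/-- one step of the construction -/
lemma step (D : Dat μ Z) {I : Type} [Fintype I] [DecidableEq I] (B : I → Set Ω)
    (hB : ∀ i, MeasurableSet (B i)) (hd : Pairwise (Function.onFun Disjoint B))
    (hpos : ∀ i, μ (B i) ≠ 0) {η : ℝ} (hη : 0 < η) :
    ∃ (A : I → Set Ω) (z : I → Z), (∀ i, A i ⊆ B i) ∧ (∀ i, MeasurableSet (A i)) ∧
      (∀ i, μ (A i) ≠ 0) ∧
      (∀ ε : I → ℝ, (∀ i, |ε i| ≤ 1) → ‖∑ i, ε i • z i‖ ≤ 2 * D.C) ∧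
      ∀ s i, ∀ x ∈ A s, |(kap D (z i) : Ω → ℝ) x - (if i = s then 1 else 0)| ≤ η := by
  classical
  rcases isEmpty_or_nonempty I with hI | hI
  · exact ⟨B, fun i => isEmptyElim i, fun i => isEmptyElim i, fun i => isEmptyElim i,
      fun i => isEmptyElim i, fun ε _ => by
        rw [Finset.sum_eq_zero (fun i _ => isEmptyElim i), norm_zero]
        have := D.hC I B hB hd (fun _ => 0) (fun _ => by simp)
        rw [Finset.sum_eq_zero (fun i _ => isEmptyElim i), norm_zero] at this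
        linarith, fun s => isEmptyElim s⟩
  obtain ⟨i0, hi0⟩ := Finite.exists_min (fun i => (μ (B i)).toReal)
  set m := (μ (B i0)).toReal with hm
  have hmpos : 0 < m := ENNReal.toReal_pos (hpos i0) (measure_ne_top _ _)
  set N : ℝ := Fintype.card I + 1 with hN
  have hNpos : 0 < N := by positivity
  -- the choice of delta
  set r : ℝ := min 1 (m / (2 * N)) with hr
  have hrpos : 0 < r := by positivity
  have hr1 : r ≤ 1 := min_le_left _ _
  have hr2 : r ≤ m / (2 * N) := min_le_right _ _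
  have hNr : N * r ^ 2 ≤ m / 2 := by
    have h1 : r ^ 2 ≤ r := by nlinarith
    calc N * r ^ 2 ≤ N * (m / (2 * N)) := by
          refine mul_le_mul_of_nonneg_left (h1.trans hr2) hNpos.le
      _ = m / 2 := by field_simp
  obtain ⟨z, hz1, hz2⟩ := approx D B hB hd (mul_pos hη hrpos)
  -- bad sets
  let bad : I → Set Ω := fun i =>
    {x | η < |(kap D (z i) : Ω → ℝ) x - (B i).indicator (fun _ => (1:ℝ)) x|}
  have hbadm : ∀ i, MeasurableSet (bad i) := by
    intro i
    have h1 : Measurable (kap D (z i) : Ω → ℝ) := (Lp.stronglyMeasurable _).measurable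
    have h2 : Measurable ((B i).indicator (fun _ => (1:ℝ))) := measurable_const.indicator (hB i)
    exact measurableSet_lt measurable_const ((h1.sub h2).abs)
  have hbad : ∀ i, μ (bad i) ≤ ENNReal.ofReal (r ^ 2) := by
    intro i
    set F := kap D (z i) - indicatorConstLp 2 (hB i) (measure_ne_top μ (B i)) (1 : ℝ) with hF
    have h1 : (F : Ω → ℝ) =ᵐ[μ] fun x => (kap D (z i) : Ω → ℝ) x - (B i).indicator (fun _ => (1:ℝ)) x := by
      refine (Lp.coeFn_sub _ _).trans ?_
      filter_upwards [indicatorConstLp_coeFn (p := 2) (hs := hB i) (hμs := measure_ne_top μ (B i))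
        (c := (1:ℝ))] with x hx
      rw [Pi.sub_apply, hx]
    have h2 : μ (bad i) ≤ μ {x | η ≤ |F x|} := by
      refine measure_mono_ae ?_
      filter_upwards [h1] with x hx hb
      change η ≤ |F x|
      rw [hx]
      exact le_of_lt hb
    refine (h2.trans (cheb F hη)).trans (ENNReal.ofReal_le_ofReal ?_)
    have h3 : ‖F‖ / η ≤ r := by
      rw [div_le_iff₀ hη, mul_comm]
      exact hz2 i
    exact pow_le_pow_left₀ (by positivity) h3 2
  let Bad : Set Ω := ⋃ i, bad i
  have hBad : μ Bad ≤ ENNReal.ofReal (m / 2) := by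
    calc μ Bad ≤ ∑ i, μ (bad i) := measure_iUnion_fintype_le _ _
      _ ≤ ∑ i : I, ENNReal.ofReal (r ^ 2) := Finset.sum_le_sum fun i _ => hbad i
      _ = Fintype.card I * ENNReal.ofReal (r ^ 2) := by
          rw [Finset.sum_const, Finset.card_univ, nsmul_eq_mul]
      _ = ENNReal.ofReal (Fintype.card I * r ^ 2) := by
          rw [ENNReal.ofReal_mul (by positivity), ENNReal.ofReal_natCast]
      _ ≤ ENNReal.ofReal (m / 2) := by
          refine ENNReal.ofReal_le_ofReal (le_trans ?_ hNr)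
          rw [hN]; nlinarith [sq_nonneg r]
  refine ⟨fun i => B i \ Bad, z, fun i => sdiff_subset, fun i => (hB i).diff
    (MeasurableSet.iUnion hbadm), fun i h0 => ?_, hz1, ?_⟩
  · have h1 : μ (B i) ≤ μ (B i \ Bad) + μ Bad := by
      calc μ (B i) ≤ μ ((B i \ Bad) ∪ Bad) := measure_mono (by
            intro x hx
            by_cases h : x ∈ Bad
            · exact Or.inr h
            · exact Or.inl ⟨hx, h⟩)
        _ ≤ _ := measure_union_le _ _
    rw [h0, zero_add] at h1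
    have h2 := h1.trans hBad
    have h3 : (μ (B i)).toReal ≤ m / 2 := by
      rw [← ENNReal.toReal_ofReal (by positivity : (0:ℝ) ≤ m / 2)]
      exact ENNReal.toReal_mono ENNReal.ofReal_ne_top h2
    have h4 := hi0 i
    linarith
  · rintro s i x ⟨hx1, hx2⟩
    have h1 : x ∉ bad i := fun h => hx2 (mem_iUnion.mpr ⟨i, h⟩)
    have h2 : |(kap D (z i) : Ω → ℝ) x - (B i).indicator (fun _ => (1:ℝ)) x| ≤ η := not_lt.mp h1
    have h3 : (B i).indicator (fun _ => (1:ℝ)) x = if i = s then 1 else 0 := by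
      by_cases his : i = s
      · subst his
        rw [if_pos rfl, indicator_of_mem hx1]
      · rw [if_neg his, indicator_of_notMem]
        intro hxi
        exact Set.disjoint_left.mp (hd his) hxi hx1
    rwa [h3] at h2

end Pool.Agent.R279.HS
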