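import Mathlib
import Pool.Agent.R279.HS.A

set_option autoImplicit false
set_option maxSynthPendingDepth 3

open MeasureTheory Filter Topology Set
open scoped ENNReal

/-!
# Complemented copies of `L₁` in dual spaces, II: weak-star limits and the Cantor space
-/

namespace Pool.Agent.R279.HS

/-! ## limits along an ultrafilter -/

/-- the ultrafilter -/
noncomputable abbrev U : Filter ℕ := (hyperfilter ℕ : Filter ℕ)

lemma U_le : U ≤ atTop := by
  have := hyperfilter_le_cofinite (α := ℕ)
  rwa [Nat.cofinite_eq_atTop] at this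

lemma exists_ulim (a : ℕ → ℝ) (C : ℝ) (h : ∀ n, |a n| ≤ C) :
    Tendsto a U (𝓝 (limUnder U a)) := by
  refine tendsto_nhds_limUnder ?_
  have h1 : ∀ n, a n ∈ Set.Icc (-C) C := fun n => abs_le.mp (h n)
  obtain ⟨l, -, hl⟩ := (isCompact_Icc (a := -C) (b := C)).ultrafilter_le_nhds
    ((hyperfilter ℕ).map a) (by
      rw [Ultrafilter.coe_map, Filter.le_principal_iff, Filter.mem_map]
      exact Filter.univ_mem' h1)
  exact ⟨l, hl⟩

/-- weak-star limits of operators into dual spaces -/
theorem exists_wlim {E F : Type*} [NormedAddCommGroup E] [NormedSpace ℝ E] [NormedAddCommGroup F]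
    [NormedSpace ℝ F] (T : ℕ → E →L[ℝ] StrongDual ℝ F) (C : ℝ) (hC : ∀ n e, ‖T n e‖ ≤ C * ‖e‖) :
    ∃ L : E →L[ℝ] StrongDual ℝ F, (∀ e, ‖L e‖ ≤ C * ‖e‖) ∧
      ∀ e f, Tendsto (fun n => T n e f) U (𝓝 (L e f)) := by
  have hb : ∀ e f n, |T n e f| ≤ C * ‖e‖ * ‖f‖ := fun e f n => by
    rw [← Real.norm_eq_abs]
    exact ((T n e).le_opNorm f).trans (mul_le_mul_of_nonneg_right (hC n e) (norm_nonneg _))
  have hlim : ∀ e f, Tendsto (fun n => T n e f) U (𝓝 (limUnder U fun n => T n e f)) := fun e f =>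
    exists_ulim _ _ (hb e f)
  have hbl : ∀ e f, |limUnder U fun n => T n e f| ≤ C * ‖e‖ * ‖f‖ := fun e f =>
    le_of_tendsto (hlim e f).abs (Filter.Eventually.of_forall (hb e f))
  let g : E → StrongDual ℝ F := fun e => LinearMap.mkContinuous
    { toFun := fun f => limUnder U fun n => T n e f
      map_add' := fun f f' => by
        refine tendsto_nhds_unique (hlim e (f + f')) ?_
        refine ((hlim e f).add (hlim e f')).congr fun n => ?_
        rw [map_add]
      map_smul' := fun c f => by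
        refine tendsto_nhds_unique (hlim e (c • f)) ?_
        refine ((hlim e f).const_mul c).congr fun n => ?_
        rw [map_smul, smul_eq_mul] } (C * ‖e‖) (fun f => by
          rw [Real.norm_eq_abs]; exact hbl e f)
  have hg : ∀ e f, g e f = limUnder U fun n => T n e f := fun e f => rfl
  refine ⟨LinearMap.mkContinuous
    { toFun := g
      map_add' := fun e e' => by
        ext f
        rw [ContinuousLinearMap.add_apply, hg, hg, hg]
        refine tendsto_nhds_unique (hlim (e + e') f) ?_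
        refine ((hlim e f).add (hlim e' f)).congr fun n => ?_
        rw [map_add]; rfl
      map_smul' := fun c e => by
        ext f
        rw [RingHom.id_apply, ContinuousLinearMap.smul_apply, hg, hg]
        refine tendsto_nhds_unique (hlim (c • e) f) ?_
        refine ((hlim e f).const_mul c).congr fun n => ?_
        rw [map_smul]; rfl } C (fun e => ?_), fun e => ?_, fun e f => hlim e f⟩
  · refine (g e).opNorm_le_bound ?_ fun f => ?_
    · have := hC 0 e; exact (norm_nonneg _).trans this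
    · rw [Real.norm_eq_abs]; exact hbl e f
  · refine (g e).opNorm_le_bound ?_ fun f => ?_
    · have := hC 0 e; exact (norm_nonneg _).trans this
    · rw [Real.norm_eq_abs]; exact hbl e f

/-! ## the Cantor space -/

/-- the Cantor space -/
abbrev Cantor := ℕ → Bool

/-- restriction to the first coordinates -/
def pr (n : ℕ) (t : Cantor) : Fin n → Bool := fun i => t i

/-- extension by `false` -/
def ex {n : ℕ} (s : Fin n → Bool) : Cantor := fun k => if h : k < n then s ⟨k, h⟩ else false

lemma pr_ex {n : ℕ} (s : Fin n → Bool) : pr n (ex s) = s := by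
  funext i
  simp [pr, ex]

lemma init_pr (n : ℕ) (t : Cantor) : (Fin.init (pr (n+1) t) : Fin n → Bool) = pr n t := rfl

lemma pr_pr {n m : ℕ} (h : n ≤ m) (t : Cantor) : pr n (ex (pr m t)) = pr n t := by
  funext i
  have : (i : ℕ) < m := lt_of_lt_of_le i.2 h
  simp [pr, ex, this]

lemma continuous_pr (n : ℕ) : Continuous (pr n) := by
  unfold pr
  fun_prop

/-- functions of the first coordinates -/
noncomputable def lift (n : ℕ) : ((Fin n → Bool) → ℝ) →ₗ[ℝ] C(Cantor, ℝ) where
  toFun φ := ⟨fun t => φ (pr n t), (continuous_of_discreteTopology (f := φ)).comp (continuous_pr n)⟩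
  map_add' _ _ := rfl
  map_smul' _ _ := rfl

lemma lift_apply (n : ℕ) (φ : (Fin n → Bool) → ℝ) (t : Cantor) : lift n φ t = φ (pr n t) := rfl

lemma norm_lift_le (n : ℕ) (φ : (Fin n → Bool) → ℝ) (C : ℝ) (hC : 0 ≤ C) (h : ∀ s, |φ s| ≤ C) :
    ‖lift n φ‖ ≤ C := by
  rw [ContinuousMap.norm_le _ hC]
  intro t
  rw [lift_apply, Real.norm_eq_abs]; exact h _

/-- the indicator of a cylinder -/
noncomputable def cyl {n : ℕ} (s : Fin n → Bool) : C(Cantor, ℝ) := lift n (Pi.single s 1)

lemma lift_eq_sum (n : ℕ) (φ : (Fin n → Bool) → ℝ) : lift n φ = ∑ s, φ s • cyl s := by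
  unfold cyl
  conv_lhs => rw [← Finset.univ_sum_single φ]
  rw [map_sum]
  refine Finset.sum_congr rfl fun s _ => ?_
  rw [← map_smul]
  congr 1
  rw [← Pi.single_smul, smul_eq_mul, mul_one]

lemma sum_abs_le (ν : StrongDual ℝ C(Cantor, ℝ)) (n : ℕ) :
    ∑ s : Fin n → Bool, |ν (cyl s)| ≤ ‖ν‖ := by
  let φ : (Fin n → Bool) → ℝ := fun s => SignType.sign (ν (cyl s))
  have h1 : ν (lift n φ) = ∑ s : Fin n → Bool, |ν (cyl s)| := by
    rw [lift_eq_sum, map_sum]
    refine Finset.sum_congr rfl fun s _ => ?_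
    rw [map_smul, smul_eq_mul]
    exact sign_mul_self _
  rw [← h1]
  have h2 : ‖lift n φ‖ ≤ 1 := by
    refine norm_lift_le n φ 1 zero_le_one fun s => ?_
    change |((SignType.sign (ν (cyl s)) : SignType) : ℝ)| ≤ 1
    rcases SignType.sign (ν (cyl s)) with _ | _ | _ <;> simp
  calc ν (lift n φ) ≤ ‖ν (lift n φ)‖ := Real.le_norm_self _
    _ ≤ ‖ν‖ * ‖lift n φ‖ := ν.le_opNorm _
    _ ≤ ‖ν‖ * 1 := by gcongr
    _ = ‖ν‖ := mul_one _

/-- approximation of continuous functions by functions of finitely many coordinates -/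
lemma tendsto_lift (f : C(Cantor, ℝ)) :
    Tendsto (fun n => lift n (fun s => f (ex s))) atTop (𝓝 f) := by
  rw [Metric.tendsto_atTop]
  intro ε hε
  have h1 : ∀ t : Cantor, ∃ n : ℕ, ∀ t' : Cantor, pr n t' = pr n t → |f t' - f t| < ε / 4 := by
    intro t
    have ho : IsOpen (f ⁻¹' Metric.ball (f t) (ε / 4)) := Metric.isOpen_ball.preimage f.continuous
    obtain ⟨I, u, hu1, hu2⟩ := isOpen_pi_iff.mp ho t (Metric.mem_ball_self (by positivity))
    refine ⟨I.sup id + 1, fun t' ht' => ?_⟩
    have h2 : t' ∈ f ⁻¹' Metric.ball (f t) (ε / 4) := by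
      refine hu2 fun k hk => ?_
      have h3 : k < I.sup id + 1 := Nat.lt_succ_of_le (Finset.le_sup (f := id) hk)
      have h4 := congrFun ht' ⟨k, h3⟩
      change t' k = t k at h4
      rw [h4]
      exact (hu1 k hk).2
    rw [mem_preimage, Metric.mem_ball, Real.dist_eq] at h2
    exact h2
  choose N hN using h1
  have hopen : ∀ t : Cantor, IsOpen {t' : Cantor | pr (N t) t' = pr (N t) t} := fun t =>
    (isOpen_discrete {pr (N t) t}).preimage (continuous_pr (N t))
  obtain ⟨T, hT⟩ := isCompact_univ.elim_finite_subcover (fun t : Cantor => {t' : Cantor | pr (N t) t' = pr (N t) t})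
    hopen (fun t _ => mem_iUnion.mpr ⟨t, rfl⟩)
  refine ⟨T.sup N, fun n hn => ?_⟩
  rw [dist_eq_norm]
  refine lt_of_le_of_lt (b := ε / 2) ?_ (by linarith)
  rw [ContinuousMap.norm_le _ (by positivity)]
  intro t'
  obtain ⟨t, htT, ht⟩ := mem_iUnion₂.mp (hT (mem_univ t'))
  have hn' : N t ≤ n := (Finset.le_sup htT).trans hn
  have e1 := hN t t' ht
  have e2 := hN t (ex (pr n t')) (by rw [pr_pr hn']; exact ht)
  rw [ContinuousMap.sub_apply, lift_apply, Real.norm_eq_abs]
  calc |f (ex (pr n t')) - f t'| = |(f (ex (pr n t')) - f t) - (f t' - f t)| := by ring_nf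
    _ ≤ |f (ex (pr n t')) - f t| + |f t' - f t| := abs_sub _ _
    _ ≤ ε / 2 := by linarith

end Pool.Agent.R279.HS
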