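import Mathlib
import Pool.Agent.R279.HS.B

set_option autoImplicit false
set_option maxSynthPendingDepth 3

open MeasureTheory Filter Topology Set
open scoped ENNReal

/-!
# Complemented copies of `L₁` in dual spaces, III: the theorem

If the dual of `Z` has a complemented copy of `L₁(μ)` for a nonatomic `μ` then the dual of
`C(Cantor)` is isomorphic to a complemented subspace of the dual of `Z`.
-/

namespace Pool.Agent.R279.HS

universe u v

variable {Ω : Type u} [MeasurableSpace Ω] {μ : Measure Ω} [IsFiniteMeasure μ]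
variable {Z : Type v} [NormedAddCommGroup Z] [NormedSpace ℝ Z]

/-- every set of positive measure splits into two sets of positive measure -/
def Split (μ : Measure Ω) : Prop :=
  ∀ A : Set Ω, MeasurableSet A → μ A ≠ 0 → ∃ B ⊆ A, MeasurableSet B ∧ μ B ≠ 0 ∧ μ (A \ B) ≠ 0

/-- a level of the construction -/
structure Lev (D : Dat μ Z) (n : ℕ) where
  A : (Fin n → Bool) → Set Ω
  z : (Fin n → Bool) → Z
  hA : ∀ s, MeasurableSet (A s)
  hpos : ∀ s, μ (A s) ≠ 0
  hdisj : Pairwise (Function.onFun Disjoint A)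
  hz : ∀ ε : (Fin n → Bool) → ℝ, (∀ s, |ε s| ≤ 1) → ‖∑ s, ε s • z s‖ ≤ 2 * D.C
  happ : ∀ s i, ∀ x ∈ A s, |(kap D (z i) : Ω → ℝ) x - (if i = s then 1 else 0)| ≤ (1/4)^n

lemma next (D : Dat μ Z) (hs : Split μ) {n : ℕ} (L : Lev D n) :
    ∃ L' : Lev D (n+1), ∀ s, L'.A s ⊆ L.A (Fin.init s) := by
  classical
  choose P hP1 hP2 hP3 hP4 using fun s => hs (L.A s) (L.hA s) (L.hpos s)
  let B : (Fin (n+1) → Bool) → Set Ω := fun s =>
    if s (Fin.last n) then P (Fin.init s) else L.A (Fin.init s) \ P (Fin.init s)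
  have hB : ∀ s, MeasurableSet (B s) := by
    intro s
    change MeasurableSet (if s (Fin.last n) then P (Fin.init s) else L.A (Fin.init s) \ P (Fin.init s))
    split_ifs
    · exact hP2 _
    · exact (L.hA _).diff (hP2 _)
  have hBpos : ∀ s, μ (B s) ≠ 0 := by
    intro s
    change μ (if s (Fin.last n) then P (Fin.init s) else L.A (Fin.init s) \ P (Fin.init s)) ≠ 0
    split_ifs
    · exact hP3 _
    · exact hP4 _
  have hBsub : ∀ s, B s ⊆ L.A (Fin.init s) := by
    intro s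
    change (if s (Fin.last n) then P (Fin.init s) else L.A (Fin.init s) \ P (Fin.init s)) ⊆ _
    split_ifs
    · exact hP1 _
    · exact sdiff_subset
  have hBd : Pairwise (Function.onFun Disjoint B) := by
    intro s t hst
    by_cases h : (Fin.init s : Fin n → Bool) = Fin.init t
    · have hl : s (Fin.last n) ≠ t (Fin.last n) := by
        intro hl
        apply hst
        funext i
        refine Fin.lastCases ?_ (fun j => ?_) i
        · exact hl
        · exact congrFun h j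
      change Disjoint (if s (Fin.last n) then P (Fin.init s) else L.A (Fin.init s) \ P (Fin.init s))
        (if t (Fin.last n) then P (Fin.init t) else L.A (Fin.init t) \ P (Fin.init t))
      rw [h]
      cases hs' : s (Fin.last n) <;> cases ht' : t (Fin.last n)
      · rw [hs', ht'] at hl; exact absurd rfl hl
      · simp only [Bool.false_eq_true, if_false, if_true]
        exact disjoint_sdiff_left
      · simp only [Bool.false_eq_true, if_false, if_true]
        exact disjoint_sdiff_right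
      · rw [hs', ht'] at hl; exact absurd rfl hl
    · exact (L.hdisj h).mono (hBsub s) (hBsub t)
  obtain ⟨A, z, h1, h2, h3, h4, h5⟩ := step D B hB hBd hBpos (η := (1/4)^(n+1)) (by positivity)
  exact ⟨⟨A, z, h2, h3, fun s t hst => (hBd hst).mono (h1 s) (h1 t), h4, h5⟩,
    fun s => (h1 s).trans (hBsub s)⟩

lemma first (D : Dat μ Z) (h0 : μ univ ≠ 0) : Nonempty (Lev D 0) := by
  classical
  obtain ⟨A, z, h1, h2, h3, h4, h5⟩ := step D (I := Fin 0 → Bool) (fun _ => univ)
    (fun _ => MeasurableSet.univ) (fun s t hst => absurd (Subsingleton.elim s t) hst) (fun _ => h0)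
    (η := (1/4)^0) (by positivity)
  exact ⟨⟨A, z, h2, h3, fun s t hst => absurd (Subsingleton.elim s t) hst, h4, h5⟩⟩

/-- the levels -/
noncomputable def levs (D : Dat μ Z) (hs : Split μ) (h0 : μ univ ≠ 0) : ∀ n, Lev D n
  | 0 => (first D h0).some
  | n+1 => (next D hs (levs D hs h0 n)).choose

lemma levs_sub (D : Dat μ Z) (hs : Split μ) (h0 : μ univ ≠ 0) (n : ℕ) (s : Fin (n+1) → Bool) :
    (levs D hs h0 (n+1)).A s ⊆ (levs D hs h0 n).A (Fin.init s) :=
  (next D hs (levs D hs h0 n)).choose_spec s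

lemma levs_anti (D : Dat μ Z) (hs : Split μ) (h0 : μ univ ≠ 0) (t : Cantor) :
    Antitone fun n => (levs D hs h0 n).A (pr n t) :=
  antitone_nat_of_succ_le fun n => levs_sub D hs h0 n (pr (n+1) t)

/-- the normalized indicator -/
noncomputable def nind (μ : Measure Ω) [IsFiniteMeasure μ] {A : Set Ω} (hA : MeasurableSet A) : Lp ℝ 2 μ :=
  indicatorConstLp 2 hA (measure_ne_top μ A) ((μ A).toReal⁻¹)

lemma inner_nind {A : Set Ω} (hA : MeasurableSet A) (f : Lp ℝ 2 μ) :
    inner ℝ f (nind μ hA) = (μ A).toReal⁻¹ * ∫ x in A, f x ∂μ := by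
  unfold nind
  rw [real_inner_comm, L2.inner_indicatorConstLp_eq_inner_setIntegral ℝ hA (measure_ne_top μ A)]
  simp [mul_comm]

/-- the map from measures to functions -/
noncomputable def gg (D : Dat μ Z) (n : ℕ) (L : Lev D n) (ν : StrongDual ℝ C(Cantor, ℝ)) : Lp ℝ 2 μ :=
  ∑ s : Fin n → Bool, ν (cyl s) • nind μ (L.hA s)

lemma norm_nind_L1 {A : Set Ω} (hA : MeasurableSet A) (hpos : μ A ≠ 0) :
    ∫ x, |nind μ hA x| ∂μ = 1 := by
  have h : (fun x => |nind μ hA x|) =ᵐ[μ] A.indicator (fun _ => (μ A).toReal⁻¹) := by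
    filter_upwards [indicatorConstLp_coeFn (p := 2) (hs := hA) (hμs := measure_ne_top μ A)
        (c := (μ A).toReal⁻¹)] with x hx
    change |(indicatorConstLp 2 hA (measure_ne_top μ A) ((μ A).toReal⁻¹) : Lp ℝ 2 μ) x| = _
    rw [hx]
    by_cases hxA : x ∈ A
    · rw [indicator_of_mem hxA, abs_of_nonneg (by positivity)]
    · rw [indicator_of_notMem hxA, abs_zero]
  rw [integral_congr_ae h, integral_indicator hA, setIntegral_const, smul_eq_mul, Measure.real]
  exact mul_inv_cancel₀ (ENNReal.toReal_pos hpos (measure_ne_top _ _)).ne'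

lemma integrable_L2 (f : Lp ℝ 2 μ) : Integrable (f : Ω → ℝ) μ :=
  (Lp.memLp f).integrable (by norm_num)

lemma gg_L1 (D : Dat μ Z) (n : ℕ) (L : Lev D n) (ν : StrongDual ℝ C(Cantor, ℝ)) :
    ∫ x, |gg D n L ν x| ∂μ ≤ ‖ν‖ := by
  have h1 : (fun x => |gg D n L ν x|) ≤ᵐ[μ] fun x => ∑ s : Fin n → Bool, |ν (cyl s)| * |nind μ (L.hA s) x| := by
    have e1 : (gg D n L ν : Ω → ℝ) =ᵐ[μ] ∑ s : Fin n → Bool, (ν (cyl s) • nind μ (L.hA s) : Lp ℝ 2 μ) := by
      unfold gg
      exact Lp.coeFn_finsetSum _ _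
    have e2 : ∀ᵐ x ∂μ, ∀ s : Fin n → Bool,
        (ν (cyl s) • nind μ (L.hA s) : Lp ℝ 2 μ) x = ν (cyl s) * nind μ (L.hA s) x := by
      rw [ae_all_iff]
      intro s
      filter_upwards [Lp.coeFn_smul (ν (cyl s)) (nind μ (L.hA s))] with x hx
      rw [hx]; rfl
    filter_upwards [e1, e2] with x hx1 hx2
    rw [hx1, Finset.sum_apply]
    refine (Finset.abs_sum_le_sum_abs _ _).trans (Finset.sum_le_sum fun s _ => ?_)
    rw [hx2 s, abs_mul]
  have hint : ∀ s : Fin n → Bool, Integrable (fun x => |ν (cyl s)| * |nind μ (L.hA s) x|) μ := fun s =>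
    (integrable_L2 _).abs.const_mul _
  calc ∫ x, |gg D n L ν x| ∂μ ≤ ∫ x, ∑ s : Fin n → Bool, |ν (cyl s)| * |nind μ (L.hA s) x| ∂μ :=
        integral_mono_ae (integrable_L2 _).abs (integrable_finsetSum _ fun s _ => hint s) h1
    _ = ∑ s : Fin n → Bool, |ν (cyl s)| * ∫ x, |nind μ (L.hA s) x| ∂μ := by
        rw [integral_finsetSum _ fun s _ => hint s]
        exact Finset.sum_congr rfl fun s _ => integral_const_mul _ _
    _ = ∑ s : Fin n → Bool, |ν (cyl s)| := by
        refine Finset.sum_congr rfl fun s _ => ?_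
        rw [norm_nind_L1 (L.hA s) (L.hpos s), mul_one]
    _ ≤ ‖ν‖ := sum_abs_le ν n

/-- the operators approximating the embedding -/
noncomputable def SS (D : Dat μ Z) (n : ℕ) (L : Lev D n) :
    StrongDual ℝ C(Cantor, ℝ) →L[ℝ] StrongDual ℝ Z :=
  ∑ s : Fin n → Bool, (ContinuousLinearMap.apply ℝ ℝ (cyl s : C(Cantor, ℝ))).smulRight (D.J (nind μ (L.hA s)))

lemma SS_apply (D : Dat μ Z) (n : ℕ) (L : Lev D n) (ν : StrongDual ℝ C(Cantor, ℝ)) :
    SS D n L ν = D.J (gg D n L ν) := by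
  unfold SS gg
  rw [map_sum, ContinuousLinearMap.sum_apply]
  refine Finset.sum_congr rfl fun s _ => ?_
  rw [map_smul]; rfl

lemma K_nonneg (D : Dat μ Z) (h0 : μ univ ≠ 0) : 0 ≤ D.K := by
  have h := D.hK (nind μ MeasurableSet.univ)
  rw [norm_nind_L1 MeasurableSet.univ h0, mul_one] at h
  exact (norm_nonneg _).trans h

lemma C_nonneg (D : Dat μ Z) : 0 ≤ D.C := by
  have := D.hC Empty (fun _ => univ) (fun i => i.elim) (fun i => i.elim) (fun _ => 0) (fun i => i.elim)
  exact (norm_nonneg _).trans this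

lemma SS_bound (D : Dat μ Z) (h0 : μ univ ≠ 0) (n : ℕ) (L : Lev D n) (ν : StrongDual ℝ C(Cantor, ℝ)) :
    ‖SS D n L ν‖ ≤ D.K * ‖ν‖ := by
  rw [SS_apply]
  exact (D.hK _).trans (mul_le_mul_of_nonneg_left (gg_L1 D n L ν) (K_nonneg D h0))

/-- the operators approximating the projection -/
noncomputable def RR (D : Dat μ Z) (n : ℕ) (L : Lev D n) :
    StrongDual ℝ Z →L[ℝ] StrongDual ℝ C(Cantor, ℝ) :=
  ∑ s : Fin n → Bool, (ContinuousLinearMap.apply ℝ ℝ (L.z s)).smulRight
    (ContinuousMap.evalCLM ℝ (ex s) : C(Cantor, ℝ) →L[ℝ] ℝ)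

lemma RR_apply (D : Dat μ Z) (n : ℕ) (L : Lev D n) (w : StrongDual ℝ Z) (f : C(Cantor, ℝ)) :
    RR D n L w f = ∑ s : Fin n → Bool, w (L.z s) * f (ex s) := by
  unfold RR
  rw [ContinuousLinearMap.sum_apply, ContinuousLinearMap.sum_apply]
  rfl

lemma RR_bound (D : Dat μ Z) (n : ℕ) (L : Lev D n) (w : StrongDual ℝ Z) :
    ‖RR D n L w‖ ≤ 2 * D.C * ‖w‖ := by
  have hC := C_nonneg D
  refine ContinuousLinearMap.opNorm_le_bound _ (by positivity) fun f => ?_
  rw [RR_apply]
  rcases eq_or_ne f 0 with hf | hf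
  · subst hf; simp
  have hfpos : 0 < ‖f‖ := norm_pos_iff.mpr hf
  have e1 : ∑ s : Fin n → Bool, w (L.z s) * f (ex s) =
      ‖f‖ * w (∑ s : Fin n → Bool, (f (ex s) / ‖f‖) • L.z s) := by
    rw [map_sum, Finset.mul_sum]
    refine Finset.sum_congr rfl fun s _ => ?_
    rw [map_smul, smul_eq_mul]
    field_simp
  rw [e1, norm_mul, norm_norm]
  have h2 : ‖∑ s : Fin n → Bool, (f (ex s) / ‖f‖) • L.z s‖ ≤ 2 * D.C := by
    refine L.hz _ fun s => ?_
    rw [abs_div, abs_of_pos hfpos, div_le_one hfpos]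
    exact f.norm_coe_le_norm _
  calc ‖f‖ * ‖w (∑ s : Fin n → Bool, (f (ex s) / ‖f‖) • L.z s)‖ ≤ ‖f‖ * (‖w‖ * (2 * D.C)) := by
        gcongr
        exact (w.le_opNorm _).trans (mul_le_mul_of_nonneg_left h2 (norm_nonneg _))
    _ = _ := by ring

/-- the key estimate -/
lemma key (D : Dat μ Z) (hs : Split μ) (h0 : μ univ ≠ 0) {n m : ℕ} (hnm : n ≤ m)
    (ν : StrongDual ℝ C(Cantor, ℝ)) (i : Fin n → Bool) :
    |SS D m (levs D hs h0 m) ν ((levs D hs h0 n).z i) - ν (cyl i)| ≤ (1/4)^n * ‖ν‖ := by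
  set L := levs D hs h0 m
  set L' := levs D hs h0 n
  rw [SS_apply, ← inner_kap]
  have e1 : inner ℝ (kap D (L'.z i)) (gg D m L ν) =
      ∑ s : Fin m → Bool, ν (cyl s) * ((μ (L.A s)).toReal⁻¹ * ∫ x in L.A s, kap D (L'.z i) x ∂μ) := by
    unfold gg
    rw [inner_sum]
    refine Finset.sum_congr rfl fun s _ => ?_
    rw [real_inner_smul_right, inner_nind]
  have e2 : ν (cyl i) = ∑ s : Fin m → Bool, ν (cyl s) * (if i = pr n (ex s) then 1 else 0) := by
    have e3 : (cyl i : C(Cantor, ℝ)) = lift m (fun s => if i = pr n (ex s) then 1 else 0) := by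
      ext t
      rw [lift_apply, pr_pr hnm]
      change (Pi.single i (1:ℝ) : (Fin n → Bool) → ℝ) (pr n t) = _
      rw [Pi.single_apply]
      by_cases h : pr n t = i
      · rw [if_pos h, if_pos h.symm]
      · rw [if_neg h, if_neg (Ne.symm h)]
    rw [e3, lift_eq_sum, map_sum]
    refine Finset.sum_congr rfl fun s _ => ?_
    rw [map_smul, smul_eq_mul, mul_comm]
  rw [e1, e2, ← Finset.sum_sub_distrib]
  refine (Finset.abs_sum_le_sum_abs _ _).trans ?_
  have h1 : ∀ s : Fin m → Bool, |(μ (L.A s)).toReal⁻¹ * (∫ x in L.A s, kap D (L'.z i) x ∂μ) -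
      (if i = pr n (ex s) then 1 else 0)| ≤ (1/4)^n := by
    intro s
    have hsub : L.A s ⊆ L'.A (pr n (ex s)) := by
      have := levs_anti D hs h0 (ex s) hnm
      simp only [pr_ex] at this
      exact this
    have hpos : 0 < (μ (L.A s)).toReal := ENNReal.toReal_pos (L.hpos s) (measure_ne_top _ _)
    set c : ℝ := if i = pr n (ex s) then 1 else 0 with hc
    have e4 : (μ (L.A s)).toReal⁻¹ * (∫ x in L.A s, kap D (L'.z i) x ∂μ) - c =
        (μ (L.A s)).toReal⁻¹ * ∫ x in L.A s, (kap D (L'.z i) x - c) ∂μ := by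
      rw [integral_sub (integrable_L2 _).integrableOn (integrable_const _), setIntegral_const,
        smul_eq_mul, Measure.real, mul_sub, inv_mul_cancel_left₀ hpos.ne']
    rw [e4, abs_mul, abs_of_pos (inv_pos.mpr hpos)]
    have h5 : |∫ x in L.A s, (kap D (L'.z i) x - c) ∂μ| ≤ (1/4)^n * (μ (L.A s)).toReal := by
      have := norm_setIntegral_le_of_norm_le_const (μ := μ) (s := L.A s)
        (f := fun x => kap D (L'.z i) x - c) (C := (1/4)^n) (measure_lt_top _ _)
        (fun x hx => L'.happ _ _ x (hsub hx))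
      exact this
    calc (μ (L.A s)).toReal⁻¹ * |∫ x in L.A s, (kap D (L'.z i) x - c) ∂μ|
        ≤ (μ (L.A s)).toReal⁻¹ * ((1/4)^n * (μ (L.A s)).toReal) := by gcongr
      _ = (1/4)^n := by field_simp
  calc ∑ s : Fin m → Bool, |ν (cyl s) * ((μ (L.A s)).toReal⁻¹ * ∫ x in L.A s, kap D (L'.z i) x ∂μ) -
        ν (cyl s) * (if i = pr n (ex s) then 1 else 0)|
      ≤ ∑ s : Fin m → Bool, |ν (cyl s)| * (1/4)^n := by
        refine Finset.sum_le_sum fun s _ => ?_
        rw [← mul_sub, abs_mul]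
        exact mul_le_mul_of_nonneg_left (h1 s) (abs_nonneg _)
    _ = (1/4)^n * ∑ s : Fin m → Bool, |ν (cyl s)| := by rw [← Finset.sum_mul, mul_comm]
    _ ≤ (1/4)^n * ‖ν‖ := by
        refine mul_le_mul_of_nonneg_left (sum_abs_le ν m) (by positivity)

/-- **Hagler–Stegall theorem**, without separability -/
theorem main (D : Dat μ Z) (hs : Split μ) (h0 : μ univ ≠ 0) :
    ∃ (S : StrongDual ℝ C(Cantor, ℝ) →L[ℝ] StrongDual ℝ Z)
      (R : StrongDual ℝ Z →L[ℝ] StrongDual ℝ C(Cantor, ℝ)), ∀ ν, R (S ν) = ν := by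
  obtain ⟨S, -, hS⟩ := exists_wlim (fun n => SS D n (levs D hs h0 n)) D.K
    (fun n ν => SS_bound D h0 n _ ν)
  obtain ⟨R, -, hR⟩ := exists_wlim (fun n => RR D n (levs D hs h0 n)) (2 * D.C)
    (fun n w => RR_bound D n _ w)
  refine ⟨S, R, fun ν => ?_⟩
  have h1 : ∀ n (i : Fin n → Bool), |S ν ((levs D hs h0 n).z i) - ν (cyl i)| ≤ (1/4)^n * ‖ν‖ := by
    intro n i
    refine le_of_tendsto ((hS ν ((levs D hs h0 n).z i)).sub_const (ν (cyl i))).abs ?_
    refine U_le ?_
    filter_upwards [eventually_ge_atTop n] with m hm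
    exact key D hs h0 hm ν i
  ext f
  refine tendsto_nhds_unique (hR (S ν) f) ?_
  have h2 : Tendsto (fun n => ν (lift n (fun s => f (ex s)))) U (𝓝 (ν f)) :=
    ((ν.continuous.tendsto f).comp (tendsto_lift f)).mono_left U_le
  have h3 : Tendsto (fun n : ℕ => (2:ℝ)^n * ((1/4)^n * ‖ν‖ * ‖f‖)) U (𝓝 0) := by
    have e : (fun n : ℕ => (2:ℝ)^n * ((1/4)^n * ‖ν‖ * ‖f‖)) = fun n => (1/2)^n * (‖ν‖ * ‖f‖) := by
      funext n
      rw [show (1/2:ℝ)^n = 2^n * (1/4)^n by rw [← mul_pow]; norm_num]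
      ring
    rw [e]
    have := (tendsto_pow_atTop_nhds_zero_of_lt_one (by norm_num : (0:ℝ) ≤ 1/2) (by norm_num)).mul_const
      (‖ν‖ * ‖f‖)
    rw [zero_mul] at this
    exact this.mono_left U_le
  have h4 : Tendsto (fun n => RR D n (levs D hs h0 n) (S ν) f - ν (lift n (fun s => f (ex s)))) U (𝓝 0) := by
    refine squeeze_zero_norm (fun n => ?_) h3
    rw [RR_apply, lift_eq_sum, map_sum, ← Finset.sum_sub_distrib]
    refine (norm_sum_le _ _).trans ?_
    calc ∑ s : Fin n → Bool, ‖S ν ((levs D hs h0 n).z s) * f (ex s) - ν (f (ex s) • cyl s)‖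
        ≤ ∑ s : Fin n → Bool, ((1/4)^n * ‖ν‖ * ‖f‖) := by
          refine Finset.sum_le_sum fun s _ => ?_
          rw [map_smul, smul_eq_mul, mul_comm (f (ex s)), ← sub_mul, norm_mul]
          exact mul_le_mul (h1 n s) (f.norm_coe_le_norm _) (norm_nonneg _) (by positivity)
      _ = 2^n * ((1/4)^n * ‖ν‖ * ‖f‖) := by
          rw [Finset.sum_const, Finset.card_univ, nsmul_eq_mul]
          simp
  have h5 := h4.add h2
  simp only [sub_add_cancel, zero_add] at h5
  exact h5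

end Pool.Agent.R279.HS
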