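import Mathlib
import Pool.Agent.R279.HS.C
import Pool.Agent.H75R3.Khin

set_option autoImplicit false
set_option maxSynthPendingDepth 3

open MeasureTheory Filter Topology Set
open scoped ENNReal

/-!
# Masses at points, and operators from `L_∞` and `L₁` into `ℓ₁`
-/

namespace Pool.Agent.R279.HS

universe u v

/-! ## masses -/

/-- the mass of a functional on `C(Cantor)` at a point -/
theorem exists_mass : ∃ m : Cantor → StrongDual ℝ (StrongDual ℝ C(Cantor, ℝ)),
    (∀ t, m t (ContinuousMap.evalCLM ℝ t) = 1) ∧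
    ∀ (F : Finset Cantor) (ν : StrongDual ℝ C(Cantor, ℝ)), ∑ t ∈ F, |m t ν| ≤ ‖ν‖ := by
  classical
  have hcyl : ∀ (n : ℕ) (t : Cantor) (ν : StrongDual ℝ C(Cantor, ℝ)), ‖ν (cyl (pr n t))‖ ≤ ‖ν‖ := by
    intro n t ν
    have h1 : ‖(cyl (pr n t) : C(Cantor, ℝ))‖ ≤ 1 := by
      refine norm_lift_le n _ 1 zero_le_one fun s => ?_
      rw [Pi.single_apply]
      split_ifs <;> simp
    calc ‖ν (cyl (pr n t))‖ ≤ ‖ν‖ * ‖(cyl (pr n t) : C(Cantor, ℝ))‖ := ν.le_opNorm _
      _ ≤ ‖ν‖ * 1 := by gcongr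
      _ = ‖ν‖ := mul_one _
  -- realise as a weak-star limit
  have hex : ∀ t : Cantor, ∃ m : StrongDual ℝ (StrongDual ℝ C(Cantor, ℝ)),
      ∀ ν, Tendsto (fun n => ν (cyl (pr n t))) U (𝓝 (m ν)) := by
    intro t
    obtain ⟨L, -, hL⟩ := exists_wlim
      (E := ℝ) (F := StrongDual ℝ C(Cantor, ℝ))
      (fun n => (ContinuousLinearMap.id ℝ ℝ).smulRight
        (ContinuousLinearMap.apply ℝ ℝ (cyl (pr n t) : C(Cantor, ℝ)))) 1 (fun n c => by
          rw [ContinuousLinearMap.smulRight_apply, norm_smul, ContinuousLinearMap.id_apply, one_mul]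
          refine mul_le_of_le_one_right (norm_nonneg _) ?_
          refine ContinuousLinearMap.opNorm_le_bound _ zero_le_one fun ν => ?_
          rw [one_mul]
          exact hcyl n t ν)
    refine ⟨L 1, fun ν => ?_⟩
    refine (hL 1 ν).congr fun n => ?_
    simp
  choose m hm using hex
  refine ⟨m, fun t => ?_, fun F ν => ?_⟩
  · refine tendsto_nhds_unique (hm t _) ?_
    refine tendsto_const_nhds.congr fun n => ?_
    change (1:ℝ) = (Pi.single (pr n t) (1:ℝ) : (Fin n → Bool) → ℝ) (pr n t)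
    rw [Pi.single_eq_same]
  · -- the points are eventually separated
    have hsep : ∀ t ∈ F, ∀ t' ∈ F, t ≠ t' → ∀ᶠ n in atTop, pr n t ≠ pr n t' := by
      intro t _ t' _ htt
      obtain ⟨k, hk⟩ := Function.ne_iff.mp htt
      filter_upwards [eventually_gt_atTop k] with n hn h
      exact hk (congrFun h ⟨k, hn⟩)
    have hinj : ∀ᶠ n in atTop, Set.InjOn (pr n) F := by
      have h1 : ∀ᶠ n in atTop, ∀ t ∈ F, ∀ t' ∈ F, t ≠ t' → pr n t ≠ pr n t' := by
        rw [Filter.eventually_all_finset]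
        intro t ht
        rw [Filter.eventually_all_finset]
        intro t' ht'
        by_cases h : t = t'
        · exact Filter.Eventually.of_forall fun n h' => absurd h h'
        · filter_upwards [hsep t ht t' ht' h] with n hn _
          exact hn
      filter_upwards [h1] with n hn t ht t' ht' h
      by_contra hne
      exact hn t ht t' ht' hne h
    have hlim : Tendsto (fun n => ∑ t ∈ F, |ν (cyl (pr n t))|) U (𝓝 (∑ t ∈ F, |m t ν|)) :=
      tendsto_finsetSum _ fun t _ => (hm t ν).abs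
    refine le_of_tendsto hlim (U_le ?_)
    filter_upwards [hinj] with n hn
    calc ∑ t ∈ F, |ν (cyl (pr n t))| = ∑ s ∈ F.image (pr n), |ν (cyl s)| := by
          rw [Finset.sum_image hn]
      _ ≤ ∑ s : Fin n → Bool, |ν (cyl s)| :=
          Finset.sum_le_univ_sum_of_nonneg fun s => abs_nonneg _
      _ ≤ ‖ν‖ := sum_abs_le ν n

variable {Ω : Type u} [MeasurableSpace Ω] {μ : Measure Ω} [IsFiniteMeasure μ]
variable {Z : Type v} [NormedAddCommGroup Z] [NormedSpace ℝ Z]

theorem masses (D : Dat μ Z) (hs : Split μ) (h0 : μ univ ≠ 0) :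
    ∃ (x : Cantor → StrongDual ℝ Z) (ρ : Cantor → StrongDual ℝ (StrongDual ℝ Z)) (C : ℝ),
      (∀ t, ρ t (x t) = 1) ∧ ∀ (F : Finset Cantor) (w : StrongDual ℝ Z), ∑ t ∈ F, |ρ t w| ≤ C * ‖w‖ := by
  obtain ⟨S, R, hSR⟩ := main D hs h0
  obtain ⟨m, hm1, hm2⟩ := exists_mass
  refine ⟨fun t => S (ContinuousMap.evalCLM ℝ t), fun t => (m t).comp R, ‖R‖, fun t => ?_, fun F w => ?_⟩
  · rw [ContinuousLinearMap.comp_apply, hSR, hm1]
  · exact (hm2 F (R w)).trans (R.le_opNorm w)

/-! ## a finite-dimensional inequality -/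

lemma fin_ineq {A : Type*} [Fintype A] (n : ℕ) (τ : A → ℕ → ℝ) (C : ℝ)
    (h : ∀ θ : A → ℝ, (∀ a, |θ a| ≤ 1) → ∑ i ∈ Finset.range n, |∑ a, θ a * τ a i| ≤ C) :
    ∑ a, ∑ i ∈ Finset.range n, |τ a i| ≤ (9/5) * √n * C := by
  classical
  have h1 : ∀ u ∈ (Finset.range n).powerset,
      ∑ a, ‖H75R3.sg (Finset.range n) u (fun i => (τ a i : ℂ))‖ ≤ C := by
    intro u _
    let ε : ℕ → ℝ := fun i => if i ∈ u then 1 else -1
    have e1 : ∀ a, ‖H75R3.sg (Finset.range n) u (fun i => (τ a i : ℂ))‖ =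
        |∑ i ∈ Finset.range n, ε i * τ a i| := by
      intro a
      have : H75R3.sg (Finset.range n) u (fun i => (τ a i : ℂ)) =
          ((∑ i ∈ Finset.range n, ε i * τ a i : ℝ) : ℂ) := by
        unfold H75R3.sg
        push_cast
        refine Finset.sum_congr rfl fun i _ => ?_
        by_cases hi : i ∈ u <;> simp [ε, hi]
      rw [this, Complex.norm_real, Real.norm_eq_abs]
    let θ : A → ℝ := fun a => SignType.sign (∑ i ∈ Finset.range n, ε i * τ a i)
    have hθ : ∀ a, |θ a| ≤ 1 := by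
      intro a
      change |((SignType.sign (∑ i ∈ Finset.range n, ε i * τ a i) : SignType) : ℝ)| ≤ 1
      rcases SignType.sign (∑ i ∈ Finset.range n, ε i * τ a i) with _ | _ | _ <;> simp
    calc ∑ a, ‖H75R3.sg (Finset.range n) u (fun i => (τ a i : ℂ))‖
        = ∑ a, θ a * ∑ i ∈ Finset.range n, ε i * τ a i := by
          refine Finset.sum_congr rfl fun a _ => ?_
          rw [e1]
          exact (sign_mul_self _).symm
      _ = ∑ i ∈ Finset.range n, ε i * ∑ a, θ a * τ a i := by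
          simp_rw [Finset.mul_sum]
          rw [Finset.sum_comm]
          refine Finset.sum_congr rfl fun i _ => Finset.sum_congr rfl fun a _ => ?_
          ring
      _ ≤ ∑ i ∈ Finset.range n, |∑ a, θ a * τ a i| := by
          refine Finset.sum_le_sum fun i _ => ?_
          refine (le_abs_self _).trans ?_
          rw [abs_mul]
          have : |ε i| = 1 := by
            change |if i ∈ u then (1:ℝ) else -1| = 1
            split_ifs <;> simp
          rw [this, one_mul]
      _ ≤ C := h θ hθ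
  have h2 : ∑ a, ∑ u ∈ (Finset.range n).powerset, ‖H75R3.sg (Finset.range n) u (fun i => (τ a i : ℂ))‖
      ≤ 2 ^ n * C := by
    rw [Finset.sum_comm]
    calc _ ≤ ∑ u ∈ (Finset.range n).powerset, C := Finset.sum_le_sum h1
      _ = 2 ^ n * C := by
        rw [Finset.sum_const, Finset.card_powerset, Finset.card_range, nsmul_eq_mul]; push_cast; ring
  have h3 : ∀ a, ∑ i ∈ Finset.range n, |τ a i| ≤
      √n * ((9/5) / 2^n * ∑ u ∈ (Finset.range n).powerset, ‖H75R3.sg (Finset.range n) u (fun i => (τ a i : ℂ))‖) := by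
    intro a
    have h4 := H75R3.khintchine (Finset.range n) (fun i => (τ a i : ℂ))
    rw [Finset.card_range] at h4
    have h5 : √(∑ i ∈ Finset.range n, |τ a i| ^ 2) ≤
        (9/5) / 2^n * ∑ u ∈ (Finset.range n).powerset, ‖H75R3.sg (Finset.range n) u (fun i => (τ a i : ℂ))‖ := by
      have e : ∑ m ∈ Finset.range n, ‖((τ a m : ℝ) : ℂ)‖ ^ 2 = ∑ i ∈ Finset.range n, |τ a i| ^ 2 := by
        simp [Complex.norm_real]
      rw [e] at h4
      have h2n : (0:ℝ) < 2^n := by positivity
      calc √(∑ i ∈ Finset.range n, |τ a i| ^ 2)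
          = (9/5) / 2^n * ((5 / 9) * 2 ^ n * √(∑ i ∈ Finset.range n, |τ a i| ^ 2)) := by
            field_simp
        _ ≤ _ := by gcongr
    have h6 : ∑ i ∈ Finset.range n, |τ a i| ≤ √n * √(∑ i ∈ Finset.range n, |τ a i| ^ 2) := by
      have h7 := Finset.sum_mul_sq_le_sq_mul_sq (Finset.range n) (fun _ => (1:ℝ)) (fun i => |τ a i|)
      simp only [one_mul, one_pow, Finset.sum_const, Finset.card_range, nsmul_eq_mul, mul_one] at h7
      rw [← Real.sqrt_mul (by positivity)]
      exact Real.le_sqrt_of_sq_le h7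
    exact h6.trans (by gcongr)
  calc ∑ a, ∑ i ∈ Finset.range n, |τ a i|
      ≤ ∑ a, √n * ((9/5) / 2^n * ∑ u ∈ (Finset.range n).powerset,
        ‖H75R3.sg (Finset.range n) u (fun i => (τ a i : ℂ))‖) := Finset.sum_le_sum fun a _ => h3 a
    _ = √n * ((9/5) / 2^n * ∑ a, ∑ u ∈ (Finset.range n).powerset,
        ‖H75R3.sg (Finset.range n) u (fun i => (τ a i : ℂ))‖) := by
        rw [Finset.mul_sum, Finset.mul_sum]
    _ ≤ √n * ((9/5) / 2^n * (2^n * C)) := by gcongr
    _ = (9/5) * √n * C := by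
        have h2n : (0:ℝ) < 2^n := by positivity
        field_simp

end Pool.Agent.R279.HS
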