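import Mathlib
import Pool.Agent.R279.HS.D

set_option autoImplicit false
set_option maxSynthPendingDepth 3

open MeasureTheory Filter Topology Set
open scoped ENNReal

/-!
# Functionals on sums of `L₁` and `L_∞`
-/

namespace Pool.Agent.R279.HS

universe u v

variable {Ω : Type u} [MeasurableSpace Ω] {μ : Measure Ω}

lemma linf_norm_le (f : Lp ℝ ∞ μ) {C : ℝ} (hC : 0 ≤ C) (h : ∀ᵐ x ∂μ, |f x| ≤ C) : ‖f‖ ≤ C := by
  rw [Lp.norm_def, eLpNorm_exponent_top]
  refine ENNReal.toReal_le_of_le_ofReal hC ?_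
  exact eLpNormEssSup_le_of_ae_bound h

lemma linf_ae_le (f : Lp ℝ ∞ μ) : ∀ᵐ x ∂μ, |f x| ≤ ‖f‖ := by
  have h1 := ae_le_eLpNormEssSup (f := (f : Ω → ℝ)) (μ := μ)
  have h2 : eLpNormEssSup (f : Ω → ℝ) μ ≠ ∞ := by
    rw [← eLpNorm_exponent_top]; exact Lp.eLpNorm_ne_top f
  filter_upwards [h1] with x hx
  rw [Lp.norm_def, eLpNorm_exponent_top]
  have := ENNReal.toReal_mono h2 hx
  rwa [toReal_enorm] at this

/-- discretization -/
lemma disc (n : ℕ) (v : ℕ → Lp ℝ ∞ μ) {M ε : ℝ} (hM : ∀ i, ‖v i‖ ≤ M) (hε : 0 < ε) :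
    ∃ (A : Type) (_ : Fintype A) (Φ : (A → ℝ) →ₗ[ℝ] Lp ℝ ∞ μ) (c : ℕ → A → ℝ),
      (∀ (θ : A → ℝ), (∀ a, |θ a| ≤ 1) → ‖Φ θ‖ ≤ 1) ∧
      (∀ i < n, ∀ a, |c i a| ≤ M + 2 * ε) ∧ ∀ i < n, ‖v i - Φ (c i)‖ ≤ ε := by
  classical
  have hM0 : 0 ≤ M := (norm_nonneg _).trans (hM 0)
  set k : ℤ := ⌈M / ε⌉ + 1 with hk
  have hk1 : M / ε + 1 ≤ k := by rw [hk]; push_cast; linarith [Int.le_ceil (M / ε)]
  have hk2 : (k:ℝ) ≤ M / ε + 2 := by rw [hk]; push_cast; linarith [Int.ceil_lt_add_one (M / ε)]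
  have hk0 : (-k) ≤ k := by
    have h1 : (0:ℝ) ≤ k := le_trans (by positivity) hk1
    have h2 : 0 ≤ k := by exact_mod_cast h1
    linarith
  let A : Type := Fin n → Set.Icc (-k) k
  let a : Ω → A := fun x i => Set.projIcc (-k) k hk0 ⌊v i x / ε⌋
  have ha : Measurable a := by
    rw [measurable_pi_iff]
    intro i
    have h1 : Measurable (v i : Ω → ℝ) := (Lp.stronglyMeasurable _).measurable
    have h2 : Measurable fun x => ⌊v i x / ε⌋ := Int.measurable_floor.comp (h1.div_const ε)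
    exact (measurable_of_countable (Set.projIcc (-k) k hk0)).comp h2
  have hmem : ∀ θ : A → ℝ, MemLp (fun x => θ (a x)) ∞ μ := by
    intro θ
    obtain ⟨C, hC⟩ : ∃ C, ∀ b, ‖θ b‖ ≤ C := by
      obtain ⟨C, hC⟩ := (Set.finite_range fun b => ‖θ b‖).bddAbove
      exact ⟨C, fun b => hC ⟨b, rfl⟩⟩
    refine memLp_top_of_bound ?_ C (Filter.Eventually.of_forall fun x => hC _)
    exact ((measurable_of_countable θ).comp ha).aestronglyMeasurable
  let Φ : (A → ℝ) →ₗ[ℝ] Lp ℝ ∞ μ :=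
    { toFun := fun θ => (hmem θ).toLp _
      map_add' := fun θ θ' => MemLp.toLp_add (hmem θ) (hmem θ')
      map_smul' := fun c θ => MemLp.toLp_const_smul c (hmem θ) }
  have hΦ : ∀ θ, (Φ θ : Ω → ℝ) =ᵐ[μ] fun x => θ (a x) := fun θ => MemLp.coeFn_toLp (hmem θ)
  let c : ℕ → A → ℝ := fun i b => if h : i < n then ε * ((b ⟨i, h⟩ : Set.Icc (-k) k) : ℤ) else 0
  refine ⟨A, inferInstance, Φ, c, fun θ hθ => ?_, fun i hi b => ?_, fun i hi => ?_⟩
  · refine linf_norm_le _ zero_le_one ?_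
    filter_upwards [hΦ θ] with x hx
    rw [hx]; exact hθ _
  · change |if h : i < n then ε * ((b ⟨i, h⟩ : Set.Icc (-k) k) : ℤ) else 0| ≤ _
    rw [dif_pos hi, abs_mul, abs_of_pos hε]
    have h1 := (b ⟨i, hi⟩).2.1
    have h2 := (b ⟨i, hi⟩).2.2
    have h3 : |(((b ⟨i, hi⟩ : Set.Icc (-k) k) : ℤ) : ℝ)| ≤ k := by
      rw [abs_le]; constructor
      · exact_mod_cast h1
      · exact_mod_cast h2
    calc ε * |(((b ⟨i, hi⟩ : Set.Icc (-k) k) : ℤ) : ℝ)| ≤ ε * (M / ε + 2) := by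
          gcongr; exact h3.trans hk2
      _ = M + 2 * ε := by field_simp
  · refine linf_norm_le _ hε.le ?_
    filter_upwards [Lp.coeFn_sub (v i) (Φ (c i)), hΦ (c i), linf_ae_le (v i)] with x hx1 hx2 hx3
    rw [hx1, Pi.sub_apply, hx2]
    have h1 : |v i x| ≤ M := hx3.trans (hM i)
    have h2 : c i (a x) = ε * (⌊v i x / ε⌋ : ℤ) := by
      change (if h : i < n then ε * (((a x) ⟨i, h⟩ : Set.Icc (-k) k) : ℤ) else 0) = _
      rw [dif_pos hi]
      have h3 : ((Set.projIcc (-k) k hk0 ⌊v i x / ε⌋ : Set.Icc (-k) k) : ℤ) = ⌊v i x / ε⌋ := by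
        have h4 : ⌊v i x / ε⌋ ∈ Set.Icc (-k) k := by
          obtain ⟨h5, h6⟩ := abs_le.mp h1
          constructor
          · rw [Int.le_floor]
            push_cast
            rw [le_div_iff₀ hε]
            have : M ≤ (k:ℝ) * ε := by
              rw [← div_le_iff₀ hε]; linarith
            linarith
          · have h7 : v i x / ε ≤ k := by
              rw [div_le_iff₀ hε]
              have : M ≤ (k:ℝ) * ε := by
                rw [← div_le_iff₀ hε]; linarith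
              linarith
            have h8 : (⌊v i x / ε⌋ : ℝ) ≤ k := (Int.floor_le _).trans h7
            exact_mod_cast h8
        rw [Set.projIcc_of_mem hk0 h4]
      change ε * ((((Set.projIcc (-k) k hk0 ⌊v i x / ε⌋ : Set.Icc (-k) k) : ℤ)) : ℝ) = _
      rw [h3]
    rw [h2]
    have h5 := Int.floor_le (v i x / ε)
    have h6 := Int.lt_floor_add_one (v i x / ε)
    have h7 : v i x = ε * (v i x / ε) := by field_simp
    rw [h7, ← mul_sub, abs_mul, abs_of_pos hε]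
    rw [← h7]
    refine mul_le_of_le_one_right hε.le ?_
    rw [abs_le]; constructor <;> linarith

/-- operators from `L_∞` to `ℓ₁` -/
lemma linf_false (ρ : ℕ → StrongDual ℝ (Lp ℝ ∞ μ)) (v : ℕ → Lp ℝ ∞ μ) {M C : ℝ}
    (hM : ∀ i, ‖v i‖ ≤ M) (hC : ∀ n w, ∑ i ∈ Finset.range n, |ρ i w| ≤ C * ‖w‖)
    (h1 : ∀ i, ρ i (v i) = 1) : False := by
  classical
  have hM0 : 0 ≤ M := (norm_nonneg _).trans (hM 0)
  have hCpos : 0 < C := by
    have h2 := hC 1 (v 0)
    rw [Finset.sum_range_one, h1, abs_one] at h2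
    by_contra h
    have h3 : C * ‖v 0‖ ≤ 0 := mul_nonpos_of_nonpos_of_nonneg (not_lt.mp h) (norm_nonneg _)
    linarith
  set ε : ℝ := 1 / (2 * C) with hε
  have hεpos : 0 < ε := by positivity
  set B : ℝ := 2 * ((M + 2 * ε) * ((9/5) * C)) with hB
  have hBpos : 0 ≤ B := by positivity
  obtain ⟨n, hn⟩ := exists_nat_gt (B ^ 2)
  obtain ⟨A, hA, Φ, c, h2, h3, h4⟩ := disc n v hM hεpos
  let τ : A → ℕ → ℝ := fun a i => ρ i (Φ (Pi.single a 1))
  have hτ : ∀ (θ : A → ℝ) i, ρ i (Φ θ) = ∑ a, θ a * τ a i := by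
    intro θ i
    conv_lhs => rw [← Finset.univ_sum_single θ]
    rw [map_sum, map_sum]
    refine Finset.sum_congr rfl fun a _ => ?_
    have : (Pi.single a (θ a) : A → ℝ) = θ a • Pi.single a 1 := by
      rw [← Pi.single_smul, smul_eq_mul, mul_one]
    rw [this, map_smul, map_smul, smul_eq_mul]
  have h5 := fin_ineq n τ C (fun θ hθ => by
    calc ∑ i ∈ Finset.range n, |∑ a, θ a * τ a i| = ∑ i ∈ Finset.range n, |ρ i (Φ θ)| := by
          refine Finset.sum_congr rfl fun i _ => ?_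
          rw [hτ]
      _ ≤ C * ‖Φ θ‖ := hC n _
      _ ≤ C * 1 := by gcongr; exact h2 θ hθ
      _ = C := mul_one _)
  have h6 : ∀ i ∈ Finset.range n, (1:ℝ)/2 ≤ ρ i (Φ (c i)) := by
    intro i hi
    have hi' := Finset.mem_range.mp hi
    have h7 : |ρ i (v i - Φ (c i))| ≤ C * ‖v i - Φ (c i)‖ := by
      refine le_trans ?_ (hC (i+1) (v i - Φ (c i)))
      exact Finset.single_le_sum (f := fun j => |ρ j (v i - Φ (c i))|) (fun j _ => abs_nonneg _)
        (Finset.mem_range.mpr (Nat.lt_succ_self i))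
    have h8 : C * ‖v i - Φ (c i)‖ ≤ 1/2 := by
      calc C * ‖v i - Φ (c i)‖ ≤ C * ε := by gcongr; exact h4 i hi'
        _ = 1/2 := by rw [hε]; field_simp
    have h9 : ρ i (Φ (c i)) = 1 - ρ i (v i - Φ (c i)) := by rw [map_sub, h1]; ring
    rw [h9]
    have := (le_abs_self (ρ i (v i - Φ (c i)))).trans (h7.trans h8)
    linarith
  have h7 : (n:ℝ) / 2 ≤ (M + 2 * ε) * ((9/5) * √n * C) := by
    calc (n:ℝ) / 2 = ∑ i ∈ Finset.range n, (1:ℝ)/2 := by
          rw [Finset.sum_const, Finset.card_range, nsmul_eq_mul]; ring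
      _ ≤ ∑ i ∈ Finset.range n, ρ i (Φ (c i)) := Finset.sum_le_sum h6
      _ = ∑ i ∈ Finset.range n, ∑ a, c i a * τ a i := by
          refine Finset.sum_congr rfl fun i _ => ?_
          rw [hτ]
      _ ≤ ∑ i ∈ Finset.range n, ∑ a, (M + 2 * ε) * |τ a i| := by
          refine Finset.sum_le_sum fun i hi => Finset.sum_le_sum fun a _ => ?_
          refine (le_abs_self _).trans ?_
          rw [abs_mul]
          exact mul_le_mul_of_nonneg_right (h3 i (Finset.mem_range.mp hi) a) (abs_nonneg _)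
      _ = (M + 2 * ε) * ∑ a, ∑ i ∈ Finset.range n, |τ a i| := by
          rw [Finset.sum_comm, Finset.mul_sum]
          refine Finset.sum_congr rfl fun a _ => ?_
          rw [Finset.mul_sum]
      _ ≤ (M + 2 * ε) * ((9/5) * √n * C) := by gcongr
  have h8 : √(n:ℝ) * √(n:ℝ) = n := Real.mul_self_sqrt (Nat.cast_nonneg n)
  have hnpos : 0 < √(n:ℝ) := Real.sqrt_pos.mpr (lt_of_le_of_lt (sq_nonneg B) hn)
  have h9 : √(n:ℝ) ≤ B := by
    by_contra hcon
    push Not at hcon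
    have h10 : √(n:ℝ) * B < √(n:ℝ) * √(n:ℝ) := mul_lt_mul_of_pos_left hcon hnpos
    rw [h8] at h10
    have h11 : (n:ℝ) ≤ √n * B := by
      calc (n:ℝ) = 2 * (n / 2) := by ring
        _ ≤ 2 * ((M + 2 * ε) * ((9/5) * √n * C)) := by linarith
        _ = √n * B := by rw [hB]; ring
    linarith
  have h10 : (n:ℝ) ≤ B ^ 2 := by
    rw [← h8, sq]
    exact mul_self_le_mul_self (Real.sqrt_nonneg _) h9
  linarith

/-- the contradiction -/
theorem sum_false {W : Type*} [NormedAddCommGroup W] [NormedSpace ℝ W]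
    [SecondCountableTopology (Lp ℝ 1 μ)]
    (i1 : Lp ℝ 1 μ →L[ℝ] W) (i2 : Lp ℝ ∞ μ →L[ℝ] W) (hsum : ∀ w, ∃ u v, w = i1 u + i2 v)
    (x : Cantor → W) (ρ : Cantor → StrongDual ℝ W) (C : ℝ) (h1 : ∀ t, ρ t (x t) = 1)
    (h2 : ∀ (F : Finset Cantor) (w : W), ∑ t ∈ F, |ρ t w| ≤ C * ‖w‖) : False := by
  classical
  have hcount : ∀ w : W, {t | ρ t w ≠ 0}.Countable := by
    intro w
    have hs : Summable fun t => |ρ t w| :=
      summable_of_sum_le (fun t => abs_nonneg _) (fun F => h2 F w)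
    have := hs.countable_support
    refine this.mono fun t ht => ?_
    rw [Function.mem_support]
    exact abs_ne_zero.mpr ht
  have : Nonempty (Lp ℝ 1 μ) := ⟨0⟩
  set T0 : Set Cantor := ⋃ k, {t | ρ t (i1 (TopologicalSpace.denseSeq (Lp ℝ 1 μ) k)) ≠ 0} with hT0
  have hT0c : T0.Countable := countable_iUnion fun k => hcount _
  have hT0z : ∀ t ∉ T0, ∀ u, ρ t (i1 u) = 0 := by
    intro t ht u
    have h3 : (fun u => ρ t (i1 u)) = fun _ => (0:ℝ) := by
      refine Continuous.ext_on (TopologicalSpace.denseRange_denseSeq (Lp ℝ 1 μ))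
        ((ρ t).continuous.comp i1.continuous) continuous_const ?_
      rintro _ ⟨k, rfl⟩
      by_contra hne
      exact ht (mem_iUnion.mpr ⟨k, hne⟩)
    exact congrFun h3 u
  choose u v huv using hsum
  have h3 : ∀ t ∉ T0, ρ t (i2 (v (x t))) = 1 := by
    intro t ht
    have h4 := h1 t
    rw [huv (x t), map_add, hT0z t ht, zero_add] at h4
    exact h4
  -- uncountability
  have h7 : Cardinal.mk Cantor = Cardinal.continuum := by
    simp [Cantor]
  have hunc : ¬ (T0ᶜ).Countable := by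
    intro h
    have h4 : (univ : Set Cantor).Countable := by
      rw [← union_compl_self T0]; exact hT0c.union h
    have h5 : Countable Cantor := countable_univ_iff.mp h4
    have h6 : Cardinal.mk Cantor ≤ Cardinal.aleph0 := Cardinal.mk_le_aleph0_iff.mpr h5
    rw [h7] at h6
    exact absurd h6 (not_le.mpr Cardinal.aleph0_lt_continuum)
  have hM : ∃ M : ℕ, ¬ {t | t ∉ T0 ∧ ‖v (x t)‖ ≤ M}.Countable := by
    by_contra hcon
    push Not at hcon
    apply hunc
    refine (countable_iUnion hcon).mono fun t ht => ?_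
    obtain ⟨M, hM⟩ := exists_nat_ge ‖v (x t)‖
    exact mem_iUnion.mpr ⟨M, ht, hM⟩
  obtain ⟨M, hM⟩ := hM
  have hinf : {t | t ∉ T0 ∧ ‖v (x t)‖ ≤ M}.Infinite := fun h => hM h.countable
  let e := hinf.natEmbedding
  refine linf_false (μ := μ) (fun i => (ρ (e i : Cantor)).comp i2) (fun i => v (x (e i : Cantor)))
    (M := M) (C := C * ‖i2‖) (fun i => (e i).2.2) (fun n w => ?_) (fun i => ?_)
  · have hinj : Set.InjOn (fun i => (e i : Cantor)) (Finset.range n) := by
      intro i _ j _ hij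
      exact e.injective (Subtype.ext hij)
    have hC0 : 0 ≤ C := by
      have h4 := h2 {fun _ => false} (x fun _ => false)
      rw [Finset.sum_singleton, h1, abs_one] at h4
      by_contra h
      have h5 : C * ‖x fun _ => false‖ ≤ 0 :=
        mul_nonpos_of_nonpos_of_nonneg (not_le.mp h).le (norm_nonneg _)
      linarith
    calc ∑ i ∈ Finset.range n, |((ρ (e i : Cantor)).comp i2) w|
        = ∑ t ∈ (Finset.range n).image (fun i => (e i : Cantor)), |ρ t (i2 w)| := by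
          rw [Finset.sum_image hinj]; rfl
      _ ≤ C * ‖i2 w‖ := h2 _ _
      _ ≤ C * (‖i2‖ * ‖w‖) := by gcongr; exact i2.le_opNorm w
      _ = C * ‖i2‖ * ‖w‖ := by ring
  · exact h3 _ (e i).2.1

end Pool.Agent.R279.HS
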